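import Pool.Agent.H82.NTC.Pot

/-!
# Row PWB of the board `ntc`
-/

set_option autoImplicit false

namespace Pool.NTC

open Pool.NET

theorem pwb_col {S c d : ℤ} (hS : 0 < S) (h : c < d) : S * c + S ≤ S * d := by
  have h1 : c + 1 ≤ d := h
  have h2 := mul_le_mul_of_nonneg_left h1 hS.le
  linarith

theorem pwb_thm : PWk Ke.B := by
  intro p e g e' g' h u hp hp' hrel tt htt v a s hs0 hs8 hlt
  obtain ⟨q0, gq, gW, We, eM, MS⟩ := hp
  obtain ⟨-, gq', gW', We', eM', -⟩ := hp'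
  obtain ⟨⟨c, r⟩, k⟩ := a
  obtain ⟨v1, v2⟩ := v
  have hS : 0 < p.S := by omega
  have hrow : p.S * r + p.S ≤ p.S * v2 ∨ r = v2 ∨ p.S * v2 + p.S ≤ p.S * r := by
    rcases lt_trichotomy r v2 with hc | hc | hc
    · exact Or.inl (pwb_col hS hc)
    · exact Or.inr (Or.inl hc)
    · exact Or.inr (Or.inr (pwb_col hS hc))
  have ht := htt ((v1, v2), Ke.J3)
  simp only [prW, pv2] at hlt ⊢
  generalize htd : tt ((v1, v2), Ke.J3) = T at hlt ht ⊢
  obtain ⟨ht0, ht8⟩ := ht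
  have hlt' : |2 * (p.S * v2 - e + (p.S * v2 - 2 * e) + 2 * p.q) + 1 -
      4 * (fy p e' ((c, r), k) + s)| < |2 * (p.S * v2 - e + (p.S * v2 - 2 * e) + 2 * p.q) + 1 -
      4 * (p.S * v2 - e + T)| := hlt
  rw [abs_of_nonpos (a := 2 * (p.S * v2 - e + (p.S * v2 - 2 * e) + 2 * p.q) + 1 -
      4 * (p.S * v2 - e + T)) (by omega), abs_lt] at hlt'
  obtain ⟨l1, l2⟩ := hlt'
  cases k
  case NW =>
    exfalso
    simp only [fy] at l1 l2
    rcases hrow with hc | rfl | hc <;> omega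
  case J4 =>
    exfalso
    simp only [fy] at l1 l2
    rcases hrow with hc | rfl | hc <;> omega
  case J1 =>
    exfalso
    simp only [fy] at l1 l2
    rcases hrow with hc | rfl | hc <;> omega
  case R =>
    exfalso
    simp only [fy] at l1 l2
    rcases hrow with hc | rfl | hc <;> omega
  case T =>
    exfalso
    simp only [fy] at l1 l2
    rcases hrow with hc | rfl | hc <;> omega
  case B =>
    exfalso
    simp only [fy] at l1 l2
    rcases hrel with ⟨h1, h2⟩ | ⟨h1, h2⟩ | ⟨h1, h2⟩ <;> rcases hrow with hc | rfl | hc <;> omega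
  case SE =>
    simp only [fy] at l1 l2
    simp only [lvW, sgW]
    rcases hrel with ⟨h1, h2⟩ | ⟨h1, h2⟩ | ⟨h1, h2⟩ <;> rcases hrow with hc | rfl | hc <;> omega
  case J2 =>
    simp only [fy] at l1 l2
    simp only [lvW, sgW]
    rcases hrel with ⟨h1, h2⟩ | ⟨h1, h2⟩ | ⟨h1, h2⟩ <;> rcases hrow with hc | rfl | hc <;> omega
  case J3 =>
    simp only [fy] at l1 l2
    simp only [lvW, sgW]
    rcases hrel with ⟨h1, h2⟩ | ⟨h1, h2⟩ | ⟨h1, h2⟩ <;> rcases hrow with hc | rfl | hc <;> omega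
  case L =>
    simp only [fy] at l1 l2
    simp only [lvW, sgW]
    rcases hrel with ⟨h1, h2⟩ | ⟨h1, h2⟩ | ⟨h1, h2⟩ <;> rcases hrow with hc | rfl | hc <;> omega

end Pool.NTC
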