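import Pool.Agent.H82.NTC.Stmts

/-!
# Row XDL of the board `ntc`
-/

set_option autoImplicit false

namespace Pool.NTC

open Pool.NET

theorem xdl_col {S c d : ℤ} (hS : 0 < S) (h : c < d) : S * c + S ≤ S * d := by
  have h1 : c + 1 ≤ d := h
  have h2 := mul_le_mul_of_nonneg_left h1 hS.le
  linarith

theorem xdl_thm : XDF Ke.L := by
  intro p e g e' g' N N' h h' u hp hp' hN hN' hU hU' hd v w hv hw h1 h2 h3 h4
  obtain ⟨q0, gq, gW, We, eM, MS⟩ := hp
  obtain ⟨-, gq', gW', We', eM', -⟩ := hp'
  obtain ⟨⟨c, r⟩, k⟩ := w
  obtain ⟨v1, v2⟩ := v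
  have hS : 0 < p.S := by omega
  have hcol : p.S * c + p.S ≤ p.S * v1 ∨ c = v1 ∨ p.S * v1 + p.S ≤ p.S * c := by
    rcases lt_trichotomy c v1 with hc | hc | hc
    · exact Or.inl (xdl_col hS hc)
    · exact Or.inr (Or.inl hc)
    · exact Or.inr (Or.inr (xdl_col hS hc))
  have hrow : p.S * r + p.S ≤ p.S * v2 ∨ r = v2 ∨ p.S * v2 + p.S ≤ p.S * r := by
    rcases lt_trichotomy r v2 with hc | hc | hc
    · exact Or.inl (xdl_col hS hc)
    · exact Or.inr (Or.inl hc)
    · exact Or.inr (Or.inr (xdl_col hS hc))
  simp only [lo, hi, nx2, fx] at h1 h2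
  cases k
  case NW =>
    exfalso
    clear h3 h4
    simp only at h1 h2
    rcases hcol with hc | rfl | hc <;> omega
  case SE =>
    exfalso
    clear h3 h4
    simp only at h1 h2
    rcases hcol with hc | rfl | hc <;> omega
  case T =>
    exfalso
    clear h3 h4
    simp only at h1 h2
    rcases hcol with hc | rfl | hc <;> omega
  case B =>
    exfalso
    clear h3 h4
    simp only at h1 h2
    rcases hcol with hc | rfl | hc <;> omega
  case R =>
    exfalso
    clear h3 h4
    simp only at h1 h2
    rcases hcol with hc | rfl | hc <;> omega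
  case J1 =>
    exfalso
    clear h3 h4
    simp only at h1 h2
    rcases hcol with hc | rfl | hc <;> omega
  case J2 =>
    exfalso
    clear h3 h4
    simp only at h1 h2
    rcases hcol with hc | rfl | hc <;> omega
  case J3 =>
    exfalso
    simp only [jl, jh, fy] at h1 h2 h3 h4
    rcases hcol with hc | rfl | hc
    · omega
    · rcases hrow with hr | rfl | hr <;> omega
    · omega
  case J4 =>
    exfalso
    simp only [jl, jh, fy] at h1 h2 h3 h4
    rcases hcol with hc | rfl | hc
    · omega
    · rcases hrow with hr | rfl | hr <;> omega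
    · omega
  case L =>
    simp only [jl, jh, fy] at h1 h2 h3 h4
    rcases hcol with hc | rfl | hc
    · exfalso
      omega
    · rcases hrow with hr | rfl | hr
      · exfalso
        omega
      · have hd1 : 4 * e ≤ e' ∧ g' + 10 * p.q ≤ g := by
          rcases hd with hd | hd
          · exact hd
          · exfalso
            omega
        refine ⟨hd1, ⟨(c, r), hv.1, hw.1⟩, ?_, ?_⟩
        · simp only [prM, fx]
          have a1 : |4 * (p.S * c - p.M - g + p.q) + 1 - 4 * (p.S * c - p.M - g)| =
              4 * p.q + 1 := by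
            rw [abs_of_nonneg (by omega)]
            ring
          have a2 : |4 * (p.S * c - p.M - g + p.q) + 1 - 4 * (p.S * c - p.M - g')| =
              -(4 * (p.S * c - p.M - g + p.q) + 1 - 4 * (p.S * c - p.M - g')) :=
            abs_of_nonpos (by omega)
          rw [a1, a2]
          omega
        · intro t
          simp only [prW, pv2, fy]
          have a1 : |4 * (p.S * r + e' + p.q) + 1 - 4 * (p.S * r + e')| = 4 * p.q + 1 := by
            rw [abs_of_nonneg (by omega)]
            ring
          have a2 : |4 * (p.S * r + e' + p.q) + 1 - 4 * (p.S * r - e)| =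
              4 * (p.S * r + e' + p.q) + 1 - 4 * (p.S * r - e) := abs_of_nonneg (by omega)
          rw [a1, a2]
          omega
      · exfalso
        omega
    · exfalso
      omega

end Pool.NTC
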